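import Mathlib
import Pool.Agent.R333.ZG3

set_option autoImplicit false

/-!
# Zero gaps of polynomials interpolating totally positive sequences are unbounded
-/

namespace Pool.Agent.Results.MP_c563b5_an.UnboundedGaps

open Polynomial Finset Filter Topology
open Pool.Agent.R333.ZG

/-- Every minor of the infinite lower triangular Toeplitz matrix `(a_{i-j})` is nonnegative. -/
def TotallyPositive (a : ℕ → ℝ) : Prop :=
  ∀ (r : ℕ) (f g : Fin r → ℕ), StrictMono f → StrictMono g →
    0 ≤ (Matrix.of fun i j => if g j ≤ f i then a (f i - g j) else 0 : Matrix (Fin r) (Fin r) ℝ).det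

/-- `P` has degree `n`, it is `a (X - x_0) ... (X - x_(n-1))` with `a ≠ 0` and
`x_0 ≤ ... ≤ x_(n-1)` real, and the sequence `P(k)` is totally positive. -/
def Admissible (n : ℕ) (P : ℝ[X]) (x : Fin n → ℝ) : Prop :=
  P.natDegree = n ∧ (∃ a : ℝ, a ≠ 0 ∧ P = C a * ∏ i, (X - C (x i))) ∧ Monotone x ∧
    TotallyPositive (fun k => P.eval (k : ℝ))

theorem tp_of_TPS {A : PowerSeries ℝ} (h : TPS A) :
    TotallyPositive (fun n => PowerSeries.coeff n A) := by
  intro r f g hf hg
  have h1 := h r r le_rfl g f hg hf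
  unfold Pool.Agent.TH809.TP.mnr at h1
  rw [← Matrix.det_transpose] at h1
  exact h1

theorem main (K : ℕ) (hK : 1 ≤ K) : ∀ᶠ m in atTop,
    TPS (aeval W (step (K + 1 / 2) (step (K + 1 / 2) (Eu m)))) := by
  classical
  have hK0 : (0 : ℝ) < K := by exact_mod_cast hK
  set ρ1 : ℝ := ((K + 1) / K : ℝ) * Real.exp (1 - (K + 1) / K) with hρ1
  set ρ2 : ℝ := (K / (K + 1) : ℝ) * Real.exp (1 - K / (K + 1)) with hρ2
  have hρ1l : ρ1 < 1 := texp_lt (by positivity) (by
    rw [Ne, div_eq_one_iff_eq hK0.ne']; linarith)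
  have hρ2l : ρ2 < 1 := texp_lt (by positivity) (by
    rw [Ne, div_eq_one_iff_eq (by positivity)]; linarith)
  have hρ10 : 0 ≤ ρ1 := by positivity
  have hρ20 : 0 ≤ ρ2 := by positivity
  have e1 := (tendsto_pow_atTop_nhds_zero_of_lt_one hρ10 hρ1l).eventually
    (gt_mem_nhds (show (0 : ℝ) < 1 / 8 by norm_num))
  have e2 := (tendsto_pow_atTop_nhds_zero_of_lt_one hρ20 hρ2l).eventually
    (gt_mem_nhds (show (0 : ℝ) < 1 / 8 by norm_num))
  have e3 := (RR_tendsto K hK).eventually (gt_mem_nhds (show (0 : ℝ) < 1 / 16 by norm_num))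
  filter_upwards [e1, e2, e3, eventually_ge_atTop 1] with m h1 h2 h3 hm
  have hm0 : (0 : ℝ) < m := by exact_mod_cast hm
  set c : ℝ := K + 1 / 2 with hc
  have hc0 : 0 < c := by positivity
  set Q0 := Eu m with hQ0
  set Q1 := step c Q0 with hQ1
  set Q2 := step c Q1 with hQ2
  have hco1 : ∀ k, PowerSeries.coeff k (aeval W Q1) = (k : ℝ) ^ m * ((k : ℝ) - c) := by
    intro k
    rw [hQ1, coeff_step, hQ0, coeff_Eu]; ring
  have hco2 : ∀ k, PowerSeries.coeff k (aeval W Q2) = (k : ℝ) ^ m * ((k : ℝ) - c) ^ 2 := by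
    intro k
    rw [hQ2, coeff_step, hco1]; ring
  have hb1 : ∀ k : ℕ, |(k : ℝ) - c| ≤ qq K k := by
    intro k
    have hk : (0 : ℝ) ≤ k := Nat.cast_nonneg k
    unfold qq
    rw [abs_le, hc]
    constructor <;> nlinarith [sq_nonneg ((k : ℝ) - 1 / 2), sq_nonneg (K : ℝ)]
  have hb2 : ∀ k : ℕ, |((k : ℝ) - c) ^ 2| ≤ qq K k := by
    intro k
    have hk : (0 : ℝ) ≤ k := Nat.cast_nonneg k
    unfold qq
    rw [abs_of_nonneg (sq_nonneg _), hc]
    nlinarith [mul_nonneg hk hK0.le]
  set x1 : ℝ := Real.exp (-(m / (K + 1) : ℝ)) with hx1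
  set x2 : ℝ := Real.exp (-(m / K : ℝ)) with hx2
  have hx10 : 0 < x1 := Real.exp_pos _
  have hx20 : 0 < x2 := Real.exp_pos _
  have hx21 : x2 < x1 := by
    rw [hx1, hx2, Real.exp_lt_exp, neg_lt_neg_iff]
    exact div_lt_div_of_pos_left hm0 hK0 (by linarith)
  have hT0 : ∀ (k : ℕ) (x : ℝ), 1 ≤ k → 0 < x → 0 < TT m k x := by
    intro k x hk hx
    have : (0 : ℝ) < k := by exact_mod_cast hk
    unfold TT; positivity
  -- the ratios
  have r2 : TT m (K + 1) x2 = ρ1 ^ m * TT m K x2 := by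
    unfold TT
    rw [hρ1, mul_pow, div_pow, pow_succ x2 K]
    have : Real.exp (1 - (K + 1) / K) ^ m = x2 := by
      rw [hx2, ← Real.exp_nat_mul]
      congr 1
      field_simp
      ring
    rw [this]
    push_cast
    field_simp
  have r1 : TT m K x1 = ρ2 ^ m * TT m (K + 1) x1 := by
    unfold TT
    rw [hρ2, mul_pow, div_pow, pow_succ x1 K]
    have : Real.exp (1 - K / (K + 1)) ^ m * x1 = 1 := by
      rw [hx1, ← Real.exp_nat_mul, ← Real.exp_add, Real.exp_eq_one_iff]
      field_simp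
      ring
    push_cast
    have h5 : (K : ℝ) ^ m / (K + 1) ^ m * Real.exp (1 - K / (K + 1)) ^ m *
        ((K + 1) ^ m * (x1 ^ K * x1)) = (K : ℝ) ^ m / (K + 1) ^ m * (K + 1) ^ m * x1 ^ K *
        (Real.exp (1 - K / (K + 1)) ^ m * x1) := by ring
    rw [h5, this]
    field_simp
  -- the signs
  set σ : ℝ := -(-1) ^ K with hσ
  have hσσ : σ * (-1) ^ K = -1 := by
    rw [hσ, neg_mul, ← mul_pow]; norm_num
  have hσa : |σ| = 1 := by
    rw [hσ, abs_neg, abs_pow, abs_neg, abs_one, one_pow]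
  have key1 : ∀ x, x2 ≤ x → x ≤ x1 → 0 < σ * Q1.eval (1 / (1 + x)) := by
    intro x hxa hxb
    have hx0 : 0 < x := hx20.trans_le hxa
    have hd := dom hK hm hxa hxb Q1 (fun k => k - c) hb1 hco1
    have hA := hT0 K x hK hx0
    have hB := hT0 (K + 1) x (by omega) hx0
    have hd2 : |σ * Q1.eval (1 / (1 + x)) - (TT m K x + TT m (K + 1) x) / 2| ≤
        RR K m * (TT m K x + TT m (K + 1) x) := by
      have e : σ * Q1.eval (1 / (1 + x)) - (TT m K x + TT m (K + 1) x) / 2 =
          σ * (Q1.eval (1 / (1 + x)) -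
            (-1) ^ K * (TT m K x * (K - c) - TT m (K + 1) x * (K + 1 - c))) := by
        rw [mul_sub, ← mul_assoc, hσσ, hc]
        ring
      rw [e, abs_mul, hσa, one_mul]
      exact hd
    have := (abs_le.1 hd2).1
    nlinarith
  have key2 : ∀ x, x2 ≤ x → x ≤ x1 →
      |σ * Q2.eval (1 / (1 + x)) + (TT m K x - TT m (K + 1) x) / 4| ≤
        RR K m * (TT m K x + TT m (K + 1) x) := by
    intro x hxa hxb
    have hd := dom hK hm hxa hxb Q2 (fun k => (k - c) ^ 2) hb2 hco2
    have e : σ * Q2.eval (1 / (1 + x)) + (TT m K x - TT m (K + 1) x) / 4 =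
        σ * (Q2.eval (1 / (1 + x)) -
          (-1) ^ K * (TT m K x * (K - c) ^ 2 - TT m (K + 1) x * (K + 1 - c) ^ 2)) := by
      rw [mul_sub, ← mul_assoc, hσσ, hc]
      ring
    rw [e, abs_mul, hσa, one_mul]
    exact hd
  have s1 : 0 < σ * Q2.eval (1 / (1 + x1)) := by
    have h := (abs_le.1 (key2 x1 hx21.le le_rfl)).1
    have hB := hT0 (K + 1) x1 (by omega) hx10
    have hA := hT0 K x1 hK hx10
    have : TT m K x1 ≤ 1 / 8 * TT m (K + 1) x1 := by
      rw [r1]
      exact mul_le_mul_of_nonneg_right h2.le hB.le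
    nlinarith
  have s2 : σ * Q2.eval (1 / (1 + x2)) < 0 := by
    have h := (abs_le.1 (key2 x2 le_rfl hx21.le)).2
    have hB := hT0 (K + 1) x2 (by omega) hx20
    have hA := hT0 K x2 hK hx20
    have : TT m (K + 1) x2 ≤ 1 / 8 * TT m K x2 := by
      rw [r2]
      exact mul_le_mul_of_nonneg_right h1.le hA.le
    nlinarith
  -- the zeros
  obtain ⟨m', rfl⟩ : ∃ m', m = m' + 1 := ⟨m - 1, by omega⟩
  obtain ⟨S, hS, hSc⟩ := Eu_zeros m'
  obtain ⟨T1, hT1, hT1c⟩ := step_zeros hc0 Q0 S hS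
  obtain ⟨T2, hT2, hT2c⟩ := step_zeros_extra hc0 Q1 T1 hT1 σ (1 / (1 + x1)) (1 / (1 + x2))
    (by positivity) (one_div_lt_one_div_of_lt (by positivity) (by linarith))
    (by rw [div_lt_one (by positivity)]; linarith) (by
      intro w hw
      have hw0 : 0 < w := lt_of_lt_of_le (by positivity) hw.1
      have e : 1 / (1 + (1 / w - 1)) = w := by
        rw [add_sub_cancel, one_div_one_div]
      have := key1 (1 / w - 1) (by
          have := one_div_le_one_div_of_le hw0 hw.2
          rw [one_div_one_div] at this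
          linarith) (by
          have := one_div_le_one_div_of_le (by positivity) hw.1
          rw [one_div_one_div] at this
          linarith)
      rw [e] at this
      exact this) s1 s2
  -- degrees
  have d0 := Eu_deg (m' + 1)
  have d1 := deg_step c Q0 _ (by omega) d0.1 d0.2
  have d2 := deg_step c Q1 _ (by omega) d1.1 d1.2
  have z0 : Q2.eval 0 = 0 := by
    rw [hQ2, step_eval, hQ1, step_eval, hQ0, Eu_zero]; ring
  have z1 : Q2.eval 1 = 0 := by
    rw [hQ2, step_eval, hQ1, step_eval, hQ0, Eu_one]; ring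
  have hne : Q2 ≠ 0 := by
    intro h
    have := d2.2
    rw [← hQ2, h] at this
    simp at this
  set T' : Finset ℝ := insert 0 (insert 1 T2) with hT'
  have n1 : (1 : ℝ) ∉ T2 := fun h => lt_irrefl _ (hT2 1 h).1.2
  have n0 : (0 : ℝ) ∉ insert 1 T2 := by
    intro h
    rcases Finset.mem_insert.1 h with h | h
    · norm_num at h
    · exact lt_irrefl _ (hT2 0 h).1.1
  have hT'c : T'.card = T2.card + 2 := by
    rw [hT', Finset.card_insert_of_notMem n0, Finset.card_insert_of_notMem n1]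
  have hsub : T' ⊆ Q2.roots.toFinset := by
    intro x hx
    rw [Multiset.mem_toFinset, mem_roots hne, IsRoot.def]
    rcases Finset.mem_insert.1 hx with h | h
    · rw [h]; exact z0
    rcases Finset.mem_insert.1 h with h | h
    · rw [h]; exact z1
    · exact (hT2 x h).2
  have c1 := Finset.card_le_card hsub
  have c2 := Multiset.toFinset_card_le Q2.roots
  have c3 := card_roots' Q2
  have c4 : Q2.natDegree = m' + 1 + 1 + 1 + 1 := d2.1
  have heq : T' = Q2.roots.toFinset := Finset.eq_of_subset_of_card_le hsub (by omega)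
  refine TPS_aeval Q2 d2.2.le (by omega) ?_
  intro r hr
  have : r ∈ T' := by
    rw [heq, Multiset.mem_toFinset]; exact hr
  rcases Finset.mem_insert.1 this with h | h
  · subst h; norm_num
  rcases Finset.mem_insert.1 h with h | h
  · subst h; norm_num
  · exact ⟨(hT2 r h).1.1.le, (hT2 r h).1.2.le⟩

/-- For every `d` and all large `n` there is an admissible polynomial of degree `n` with a gap
between consecutive zeros larger than `d`. -/
theorem result : (∀ d : ℝ, ∀ᶠ n in atTop, ∃ (P : ℝ[X]) (x : Fin n → ℝ), Admissible n P x ∧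
      ∃ (j : ℕ) (hj : j + 1 < n), d < x ⟨j + 1, hj⟩ - x ⟨j, by omega⟩) ∧
    ¬ ∃ d : ℝ, 1 ≤ d ∧ ∀ n, 2 ≤ n → ∀ (P : ℝ[X]) (x : Fin n → ℝ), Admissible n P x →
      ∀ (j : ℕ) (hj : j + 1 < n), x ⟨j + 1, hj⟩ - x ⟨j, by omega⟩ ≤ d := by
  have hmain : ∀ d : ℝ, ∀ᶠ n in atTop, ∃ (P : ℝ[X]) (x : Fin n → ℝ), Admissible n P x ∧
      ∃ (j : ℕ) (hj : j + 1 < n), d < x ⟨j + 1, hj⟩ - x ⟨j, by omega⟩ := by
    intro d
    obtain ⟨K0, hK0⟩ := exists_nat_gt d
    set K := K0 + 1 with hKdef
    have hK : 1 ≤ K := by omega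
    have hdK : d < (K : ℝ) + 1 / 2 := by
      rw [hKdef]; push_cast; linarith
    obtain ⟨m0, hm0⟩ := eventually_atTop.1 (main K hK)
    rw [eventually_atTop]
    refine ⟨m0 + 3, fun n hn => ?_⟩
    obtain ⟨m, rfl⟩ : ∃ m, n = m + 2 := ⟨n - 2, by omega⟩
    have hm := hm0 m (by omega)
    have hm1 : 1 ≤ m := by omega
    set c : ℝ := K + 1 / 2 with hc
    have hc0 : 0 ≤ c := by positivity
    set x : Fin (m + 2) → ℝ := fun i => if (i : ℕ) < m then 0 else c with hx
    set P : ℝ[X] := X ^ m * (X - C c) ^ 2 with hP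
    have hprod : P = C 1 * ∏ i, (X - C (x i)) := by
      rw [Fin.prod_univ_castSucc, Fin.prod_univ_castSucc]
      have e1 : ∏ i : Fin m, (X - C (x i.castSucc.castSucc)) = X ^ m := by
        rw [Finset.prod_congr rfl (g := fun _ => (X : ℝ[X]))]
        · simp
        · intro i _
          have : x i.castSucc.castSucc = 0 := by
            rw [hx]; simp
          rw [this]; simp
      have e2 : x (Fin.last m).castSucc = c := by rw [hx]; simp
      have e3 : x (Fin.last (m + 1)) = c := by rw [hx]; simp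
      rw [e1, e2, e3, hP, map_one]
      ring
    refine ⟨P, x, ⟨?_, ⟨1, one_ne_zero, hprod⟩, ?_, ?_⟩, m - 1, by omega, ?_⟩
    · rw [hP, natDegree_mul (pow_ne_zero _ X_ne_zero) (pow_ne_zero _ (X_sub_C_ne_zero c)),
        natDegree_pow, natDegree_pow, natDegree_X, natDegree_X_sub_C]
      omega
    · intro i j hij
      rw [hx]
      simp only
      split_ifs with h1 h2 h2
      · exact le_rfl
      · exact hc0
      · exact absurd (lt_of_le_of_lt (Fin.le_def.1 hij) h2) h1
      · exact le_rfl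
    · have := tp_of_TPS hm
      have e : (fun k : ℕ => P.eval (k : ℝ)) = fun n => PowerSeries.coeff n
          (aeval W (step (K + 1 / 2) (step (K + 1 / 2) (Eu m)))) := by
        funext k
        rw [coeff_step, coeff_step, coeff_Eu, hP]
        simp only [eval_mul, eval_pow, eval_sub, eval_X, eval_C, hc]
        ring
      rw [e]
      exact this
    · have e1 : x ⟨m - 1 + 1, by omega⟩ = c := by
        rw [hx]
        simp only
        rw [if_neg (by omega)]
      have e2 : x ⟨m - 1, by omega⟩ = 0 := by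
        rw [hx]
        simp only
        rw [if_pos (by omega)]
      rw [e1, e2, sub_zero]
      exact hdK
  refine ⟨hmain, ?_⟩
  rintro ⟨d, _, hd⟩
  obtain ⟨n, hn1, hn2⟩ := ((hmain d).and (eventually_ge_atTop 2)).exists
  obtain ⟨P, x, hA, j, hj, hlt⟩ := hn1
  exact absurd (hd n hn2 P x hA j hj) (not_le.2 hlt)

end Pool.Agent.Results.MP_c563b5_an.UnboundedGaps
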